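import Pool.Agent.Helper36.CQ.St

/-!
# Project CQ (MP_f663dd_lc): module DEC, every infinite cardinal is a finite successor of a limit cardinal
-/

set_option autoImplicit false

namespace Pool.Agent.Helper16.CQ

open Cardinal Set Pool.Agent.Helper36.CQ

universe u

/-- module DEC -/
theorem mDEC : StDec.{u} := by
  intro k
  induction k using WellFoundedLT.induction with
  | ind k ih =>
    intro hk
    by_cases h : ∀ c < k, Order.succ c < k
    · exact ⟨k, 0, hk, h, rfl⟩
    · push Not at h
      obtain ⟨c, hc, hkc⟩ := h
      have hks : k = Order.succ c := le_antisymm hkc (Order.succ_le_of_lt hc)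
      have hca : ℵ₀ ≤ c := by
        by_contra hlt
        rw [not_le] at hlt
        have h1 : Order.succ c < ℵ₀ := isSuccLimit_aleph0.succ_lt hlt
        rw [← hks] at h1
        exact absurd hk (not_le.2 h1)
      obtain ⟨ρ, n, h1, h2, h3⟩ := ih c hc hca
      refine ⟨ρ, n + 1, h1, h2, ?_⟩
      rw [Function.iterate_succ_apply', h3, hks]

end Pool.Agent.Helper16.CQ
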